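import Pool.Agent.Q49.DGFour

/-!
# Complex discrete Gaussians with fixed parameter are not determined by their moments up to
order three, in any dimension `g ≥ 4`.
-/

namespace Pool.Agent.Results.MP_405529_ag.MomentsFail

open Q49.DG

/-- For every `g ≥ 4` there are `B ∈ ℍ_g` and `u, u' ∈ ℂ^g`, not zeros of `θ(·, B)`, such that the
complex discrete Gaussians with parameter `B` given by `u` and `u'` have the same moments up to
order three, but different weight functions. -/
theorem result (g : ℕ) (hg : 4 ≤ g) :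
    ∃ (B : Matrix (Fin g) (Fin g) ℂ) (u u' : Fin g → ℂ), InH B ∧
      theta u B ≠ 0 ∧ theta u' B ≠ 0 ∧
      (∀ α : Fin g → ℕ, ∑ i, α i ≤ 3 → moment u B α = moment u' B α) ∧
      ∃ n : Fin g → ℤ, weight u B n ≠ weight u' B n := by
  obtain ⟨k, rfl⟩ : ∃ k, g = k + 4 := ⟨g - 4, by omega⟩
  refine ⟨Q49.DGFour.BB (k + 4), Q49.DGFour.uj 0, Q49.DGFour.uj 1, Q49.DGFour.BB_inH _,
    Q49.DGFour.theta_zero_ne k, ?_, Q49.DGFour.moments_agree k, _, Q49.DGFour.weights_differ k⟩
  rw [← Q49.DGFour.theta_agree]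
  exact Q49.DGFour.theta_zero_ne k

end Pool.Agent.Results.MP_405529_ag.MomentsFail
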